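import Pool.Agent.T9h97.Fork.Both

/-!
# Circuits of logarithmic depth with monotone advice and antitone oracles
-/

set_option autoImplicit false

namespace Pool.Agent.Results.MP_7713c5_lc.AdviceAndOraclesDepth

open Finset Pool.Agent.H540R2 Pool.Agent.T9h97.Fork

/-- For every `n` there is a monotone circuit `C` with `n` inputs and at most `3 n` gates such that
the following holds.  Suppose that `R` monotone circuits `h 0, ..., h (R - 1)` of depth at most `d`
(of any size) compute the bits `v` of an advice, that for every `v` there is a monotone circuit `D v`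
of depth at most `d` (of any size) which reads the variables and the values of `t` arbitrary
antitone functions `φ 0, ..., φ (t - 1)` of the variables (of any complexity), and that the value of
`C` is always the value of `D v` for the advice `v`.  Then
`R + t + 1 ≥ n / 2 ^ (8 sqrt(d + ⌈log₂ (R + 1)⌉) + 25)`. -/
theorem result (n : ℕ) : ∃ C : Circuit n, C.Monotone ∧ C.size ≤ 3 * n ∧
    ∀ (R t d : ℕ) (h : Fin R → Circuit n) (φ : Fin t → (Fin n → Bool) → Bool)
      (D : (Fin R → Bool) → Circuit (n + t)),
      (∀ i, (h i).Monotone ∧ (h i).depth ≤ d) → (∀ i, Antitone (φ i)) →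
      (∀ v, (D v).Monotone ∧ (D v).depth ≤ d) →
      (∀ x, C.eval x = (D fun i => (h i).eval x).eval (Fin.append x fun i => φ i x)) →
      n ≤ 2 ^ (8 * Nat.sqrt (d + Nat.clog 2 (R + 1)) + 25) * (R + t + 1) := by
  classical
  obtain ⟨C, hm, hs, hC⟩ := circuit n
  refine ⟨C, hm, hs, fun R t d h φ D hh hφ hD hE => ?_⟩
  set a := Nat.clog 2 (R + 1) with ha
  have hRa : R + 1 ≤ 2 ^ a := Nat.le_pow_clog (by norm_num) _
  have hsq : d + a < (Nat.sqrt (d + a) + 1) * (Nat.sqrt (d + a) + 1) := Nat.lt_succ_sqrt _
  set s := Nat.sqrt (d + a) with hsdef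
  have hdd : d + a ≤ (s + 2) * (s + 2 - 1) := by
    have : s + 2 - 1 = s + 1 := by omega
    rw [this]
    nlinarith
  have hφ' : ∀ i x y, (∀ v, x v = true → y v = true) → φ i y = true → φ i x = true := by
    intro i x y hxy hy
    have h1 : x ≤ y := fun v => Bool.le_iff_imp.2 (hxy v)
    exact Bool.le_iff_imp.1 (hφ i h1) hy
  obtain ⟨x, hx⟩ := fn_sep (n := n)
    (f := fun x => (D fun i => (h i).eval x).eval (Fin.append x fun i => φ i x))
    (fun x => (hE x).symm.trans (hC x)) (b := s + 2) (by omega) hdd
    (sep_both h hh φ hφ' D hD hRa (EE (s + 2)))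
  have h1 : (univ.filter fun i : Fin R => (h i).eval x = true).card ≤ R :=
    (card_le_univ _).trans (by simp)
  have h2 : (univ.filter fun i : Fin t => φ i x = false).card ≤ t :=
    (card_le_univ _).trans (by simp)
  have h3 : (univ.filter fun i : Fin R => (h i).eval x = true).card +
      (univ.filter fun i : Fin t => φ i x = false).card ≤ R + t := add_le_add h1 h2
  have h4 : n < 2 ^ (8 * (s + 2) + 9) * (n / 2 ^ (8 * (s + 2) + 9) + 1) :=
    Nat.lt_mul_div_succ n (by positivity)
  have h5 : 8 * (s + 2) + 9 = 8 * s + 25 := by ring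
  rw [h5] at h4 hx
  refine h4.le.trans (Nat.mul_le_mul_left _ ?_)
  have h6 : n / 2 ^ (8 * s + 25) ≤ R + t := hx.trans (le_of_eq_of_le (by congr) h3)
  omega

end Pool.Agent.Results.MP_7713c5_lc.AdviceAndOraclesDepth
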