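import Pool.Agent.T9h97.Fork.Fn

/-!
# Negation-limited circuits of logarithmic depth: the optimal number of NOT gates
-/

set_option autoImplicit false

namespace Pool.Agent.Results.MP_7713c5_lc.NegLogDepthOpt

open Finset Pool.Agent.H540R2 Pool.Agent.T9h97.Fork

lemma nots_le_prod {n : ℕ} (D : Circuit n) :
    D.nots + 1 ≤ ∏ j ∈ range (D.size + 1), (notsAt D j + 1) := by
  have h1 : D.nots = ∑ j ∈ range (D.size + 1), notsAt D j := by
    rw [Circuit.nots, Finset.card_eq_sum_card_fiberwise (f := lev D) (t := range (D.size + 1))]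
    · refine sum_congr rfl fun j _ => ?_
      rw [notsAt, filter_filter]
    · intro i hi
      have hi' := mem_filter.1 hi
      have := lev_le D i (mem_range.1 hi'.1)
      have := mem_range.1 hi'.1
      simp only [coe_range, Set.mem_Iio]
      omega
  rw [h1]
  generalize D.size + 1 = m
  induction m with
  | zero => simp
  | succ m ih =>
    rw [sum_range_succ, prod_range_succ]
    have h2 : 1 ≤ ∏ j ∈ range m, (notsAt D j + 1) := by omega
    nlinarith [Nat.zero_le (notsAt D m)]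

lemma prod_le_two_pow {n : ℕ} (D : Circuit n) :
    ∏ j ∈ range (D.size + 1), (notsAt D j + 1) ≤ 2 ^ D.nots := by
  have h1 : D.nots = ∑ j ∈ range (D.size + 1), notsAt D j := by
    rw [Circuit.nots, Finset.card_eq_sum_card_fiberwise (f := lev D) (t := range (D.size + 1))]
    · refine sum_congr rfl fun j _ => ?_
      rw [notsAt, filter_filter]
    · intro i hi
      have hi' := mem_filter.1 hi
      have := lev_le D i (mem_range.1 hi'.1)
      have := mem_range.1 hi'.1
      simp only [coe_range, Set.mem_Iio]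
      omega
  rw [h1, ← prod_pow_eq_pow_sum]
  exact prod_le_prod' fun j _ => Nat.lt_two_pow_self

/-- For every `n` there is a monotone circuit `C` with `n` inputs and at most `3 n` gates such that
every circuit `D` with AND, OR and NOT gates that is equivalent to `C` and has depth at most `d`,
where `n ≤ 2 ^ d`, satisfies `n ≤ 2 ^ (8 sqrt(2 d + 1) + 25) * ∏ j, (t_j + 1)`, where `t_j` is the
number of NOT gates of `D` of inversion depth `j`. In particular `D` has at least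
`log₂ n - 8 sqrt(2 d + 1) - 25` NOT gates. -/
lemma main (n : ℕ) : ∃ C : Circuit n, C.Monotone ∧ C.size ≤ 3 * n ∧
    ∀ (D : Circuit n) (d : ℕ), C.Equiv D → D.depth ≤ d → n ≤ 2 ^ d →
      n ≤ 2 ^ (8 * Nat.sqrt (2 * d + 1) + 25) * ∏ j ∈ range (D.size + 1), (notsAt D j + 1) ∧
      n ≤ 2 ^ (8 * Nat.sqrt (2 * d + 1) + 25 + D.nots) := by
  obtain ⟨C, hm, hs, hC⟩ := circuit n
  refine ⟨C, hm, hs, fun D d hE hd hn => ?_⟩
  have key : n ≤ 2 ^ (8 * Nat.sqrt (2 * d + 1) + 25) *
      ∏ j ∈ range (D.size + 1), (notsAt D j + 1) := by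
    have h1 := nots_le_prod D
    have hpow : 1 ≤ 2 ^ (8 * Nat.sqrt (2 * d + 1) + 25) := Nat.one_le_two_pow
    rcases lt_or_ge n D.nots with h2 | h2
    · nlinarith
    have hT : (Rel D d).card ≤ 2 ^ d := by
      refine le_trans ?_ (h2.trans hn)
      apply card_le_card
      intro i hi
      have := mem_Rel.1 hi
      rw [mem_filter, mem_range]
      exact ⟨this.1, this.2.1⟩
    have hD : ∀ x, D.eval x = fn n x := fun x => (hE x).symm.trans (hC x)
    have hsq : 2 * d + 1 < (Nat.sqrt (2 * d + 1) + 1) * (Nat.sqrt (2 * d + 1) + 1) :=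
      Nat.lt_succ_sqrt _
    set s := Nat.sqrt (2 * d + 1) with hsdef
    have hdd : d + d + 1 ≤ (s + 2) * (s + 2 - 1) := by
      have : s + 2 - 1 = s + 1 := by omega
      rw [this]
      nlinarith
    obtain ⟨x, hx⟩ := fn_sep hD (b := s + 2) (by omega) hdd (sep_nots hd hT (EE (s + 2)))
    have h3 := rank_lt D d x
    have h4 : n < 2 ^ (8 * (s + 2) + 9) * (n / 2 ^ (8 * (s + 2) + 9) + 1) :=
      Nat.lt_mul_div_succ n (by positivity)
    have h5 : 8 * (s + 2) + 9 = 8 * s + 25 := by ring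
    rw [h5] at h4 hx
    refine h4.le.trans (Nat.mul_le_mul_left _ ?_)
    omega
  refine ⟨key, key.trans ?_⟩
  rw [pow_add 2 _ D.nots]
  exact Nat.mul_le_mul_left _ (prod_le_two_pow D)


/-- For every constant `c` and every `ε > 0`, for all large `S` there is a monotone circuit with at
most `S` gates such that every equivalent circuit of depth at most `c log₂ S` has at least
`(1 - ε) log₂ S` NOT gates. -/
lemma log_form (c : ℕ) (ε : ℝ) (hε : 0 < ε) : ∃ S₀ : ℕ, ∀ S : ℕ, S₀ ≤ S →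
    ∃ (n : ℕ) (C : Circuit n), C.Monotone ∧ C.size ≤ S ∧
      ∀ D : Circuit n, C.Equiv D → (D.depth : ℝ) ≤ c * Real.logb 2 S →
        (1 - ε) * Real.logb 2 S ≤ D.nots := by
  set K : ℝ := (28 + 8 * Real.sqrt (2 * c + 5)) / ε with hK
  have hK0 : 0 < K := by positivity
  refine ⟨⌈(2 : ℝ) ^ (max 1 (K ^ 2))⌉₊ + 6, fun S hS => ?_⟩
  have hS6 : 6 ≤ S := by omega
  have hSpos : (0 : ℝ) < S := by
    have : 0 < S := by omega
    exact_mod_cast this
  set l := Real.logb 2 S with hl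
  have hl2 : (2 : ℝ) ^ l = S := Real.rpow_logb (by norm_num) (by norm_num) hSpos
  have hlmax : max 1 (K ^ 2) ≤ l := by
    rw [hl, Real.le_logb_iff_rpow_le (by norm_num) hSpos]
    have h1 : (2 : ℝ) ^ (max 1 (K ^ 2)) ≤ ⌈(2 : ℝ) ^ (max 1 (K ^ 2))⌉₊ := Nat.le_ceil _
    have h2 : ((⌈(2 : ℝ) ^ (max 1 (K ^ 2))⌉₊ : ℕ) : ℝ) ≤ S := by
      exact_mod_cast (by omega : ⌈(2 : ℝ) ^ (max 1 (K ^ 2))⌉₊ ≤ S)
    exact h1.trans h2
  have hl1 : 1 ≤ l := le_trans (le_max_left _ _) hlmax
  have hlK : K ^ 2 ≤ l := le_trans (le_max_right _ _) hlmax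
  obtain ⟨C, hm, hs, hC⟩ := main (S / 3)
  refine ⟨S / 3, C, hm, by omega, fun D hE hD => ?_⟩
  have hn1 : S ≤ 6 * (S / 3) := by omega
  set d := ⌈((c : ℝ) + 1) * l⌉₊ with hd
  have hdl : ((c : ℝ) + 1) * l ≤ d := Nat.le_ceil _
  have hdu : (d : ℝ) < ((c : ℝ) + 1) * l + 1 := Nat.ceil_lt_add_one (by positivity)
  have hDd : D.depth ≤ d := by
    have : (D.depth : ℝ) ≤ d := by
      have : (c : ℝ) * l ≤ (c + 1) * l := by nlinarith
      linarith
    exact_mod_cast this
  have hnd : S / 3 ≤ 2 ^ d := by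
    have h1 : (S : ℝ) ≤ (2 : ℝ) ^ (d : ℝ) := by
      rw [← hl2]
      apply Real.rpow_le_rpow_of_exponent_le (by norm_num)
      have hc0 : (0 : ℝ) ≤ c := Nat.cast_nonneg c
      nlinarith
    rw [Real.rpow_natCast] at h1
    have h2 : S ≤ 2 ^ d := by exact_mod_cast h1
    omega
  have h3 := (hC D d hE hDd hnd).2
  -- take logarithms
  have h4 : (S : ℝ) ≤ 6 * (2 : ℝ) ^ (8 * Nat.sqrt (2 * d + 1) + 25 + D.nots) := by
    have : S ≤ 6 * 2 ^ (8 * Nat.sqrt (2 * d + 1) + 25 + D.nots) := by omega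
    exact_mod_cast this
  have h5 : (S : ℝ) ≤ (2 : ℝ) ^ (((8 * Nat.sqrt (2 * d + 1) + 28 + D.nots : ℕ)) : ℝ) := by
    rw [Real.rpow_natCast]
    have e : 8 * Nat.sqrt (2 * d + 1) + 28 + D.nots =
        (8 * Nat.sqrt (2 * d + 1) + 25 + D.nots) + 3 := by ring
    rw [e, pow_add]
    have : (0 : ℝ) < (2 : ℝ) ^ (8 * Nat.sqrt (2 * d + 1) + 25 + D.nots) := by positivity
    nlinarith
  have h6 : l ≤ ((8 * Nat.sqrt (2 * d + 1) + 28 + D.nots : ℕ) : ℝ) := by
    rw [← hl2] at h5
    exact (Real.rpow_le_rpow_left_iff (by norm_num)).1 h5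
  push_cast at h6
  have h7 : (Nat.sqrt (2 * d + 1) : ℝ) ≤ Real.sqrt ((2 * c + 5) * l) := by
    refine (Real.nat_sqrt_le_real_sqrt).trans ?_
    apply Real.sqrt_le_sqrt
    push_cast
    nlinarith
  rw [Real.sqrt_mul (by positivity)] at h7
  set r := Real.sqrt l with hr
  have hr1 : 1 ≤ r := by
    rw [hr, Real.one_le_sqrt]
    exact hl1
  have hrl : r * r = l := Real.mul_self_sqrt (by linarith)
  have hrK : K ≤ r := by
    rw [hr]
    exact Real.le_sqrt_of_sq_le hlK
  have h8 : (28 + 8 * Real.sqrt (2 * c + 5)) ≤ ε * r := by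
    rw [hK, div_le_iff₀ hε] at hrK
    linarith
  have h9 : (28 + 8 * Real.sqrt (2 * c + 5)) * r ≤ ε * l := by
    rw [← hrl]
    nlinarith
  nlinarith

/-- (1) For every `n` there is a monotone circuit `C` with `n` inputs and at most `3 n` gates such
that every circuit `D` with AND, OR and NOT gates that is equivalent to `C` and has depth at most
`d`, where `n ≤ 2 ^ d`, satisfies `n ≤ 2 ^ (8 sqrt(2 d + 1) + 25) * ∏ j, (t_j + 1)`, where `t_j` is
the number of NOT gates of `D` of inversion depth `j`, and hence has at least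
`log₂ n - 8 sqrt(2 d + 1) - 25` NOT gates.
(2) In particular, for every constant `c` and every `ε > 0`, for all large `S` there is a monotone
circuit with at most `S` gates such that every equivalent circuit of depth at most `c log₂ S` has at
least `(1 - ε) log₂ S` NOT gates. -/
theorem result :
    (∀ n : ℕ, ∃ C : Circuit n, C.Monotone ∧ C.size ≤ 3 * n ∧
      ∀ (D : Circuit n) (d : ℕ), C.Equiv D → D.depth ≤ d → n ≤ 2 ^ d →
        n ≤ 2 ^ (8 * Nat.sqrt (2 * d + 1) + 25) * ∏ j ∈ range (D.size + 1), (notsAt D j + 1) ∧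
        n ≤ 2 ^ (8 * Nat.sqrt (2 * d + 1) + 25 + D.nots)) ∧
    ∀ (c : ℕ) (ε : ℝ), 0 < ε → ∃ S₀ : ℕ, ∀ S : ℕ, S₀ ≤ S →
      ∃ (n : ℕ) (C : Circuit n), C.Monotone ∧ C.size ≤ S ∧
        ∀ D : Circuit n, C.Equiv D → (D.depth : ℝ) ≤ c * Real.logb 2 S →
          (1 - ε) * Real.logb 2 S ≤ D.nots :=
  ⟨main, log_form⟩

end Pool.Agent.Results.MP_7713c5_lc.NegLogDepthOpt
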