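import Pool.Agent.T9h97.Fork.Fn2

/-!
# Nondeterministic circuits of logarithmic depth with few witness bits

The verification is monotone in the input, but it depends in an arbitrary way on the witness.
-/

set_option autoImplicit false

namespace Pool.Agent.Results.MP_7713c5_lc.WitnessBitsDepth

open Pool.Agent.H540R2 Pool.Agent.T9h97.Fork

/-- For every `n` there is a monotone circuit `C` with `n` inputs and at most `3 n` gates such that
the following holds.  Let `D w`, for all `w` in a nonempty finite set `W`, be monotone circuits of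
depth at most `d` (of any size).  If `C` computes the disjunction of the functions computed by the
circuits `D w`, or if `C` computes their conjunction, then
`log₂ |W| ≥ ⌊n / 2 ^ (8 sqrt d + 26)⌋`. -/
theorem result (n : ℕ) : ∃ C : Circuit n, C.Monotone ∧ C.size ≤ 3 * n ∧
    ∀ (d : ℕ) (W : Type) [Fintype W] [Nonempty W] (D : W → Circuit n),
      (∀ w, (D w).Monotone ∧ (D w).depth ≤ d) →
      ((∀ x, C.eval x = true ↔ ∃ w, (D w).eval x = true) ∨
        (∀ x, C.eval x = true ↔ ∀ w, (D w).eval x = true)) →
      2 ^ (n / 2 ^ (8 * Nat.sqrt d + 26)) ≤ Fintype.card W := by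
  obtain ⟨C, hm, hs, hC⟩ := circuit2 n
  refine ⟨C, hm, hs, fun d W _ _ D hD hE => ?_⟩
  have hsq : d < (Nat.sqrt d + 1) * (Nat.sqrt d + 1) := Nat.lt_succ_sqrt _
  set s := Nat.sqrt d with hsdef
  have hdd : d ≤ (s + 2) * (s + 2 - 1) := by
    have : s + 2 - 1 = s + 1 := by omega
    rw [this]
    nlinarith
  have h1 := fn2_many (n := n) (b := s + 2) (by omega) hdd (fun w => (D w).eval)
    (fun w => (mono_MF (hD w).1).mono (hD w).2) (by
      rcases hE with hE | hE
      · exact Or.inl fun x => by rw [← hC]; exact hE x
      · exact Or.inr fun x => by rw [← hC]; exact hE x)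
  have h2 : 8 * (s + 2) + 10 = 8 * s + 26 := by ring
  rw [h2] at h1
  refine le_trans (Nat.pow_le_pow_right (by norm_num) ?_) h1
  exact Nat.le_mul_of_pos_left _ (by omega)

end Pool.Agent.Results.MP_7713c5_lc.WitnessBitsDepth
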